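import Pool.Agent.H18.VZ.Targets
import Pool.Agent.H70.HX.NRX

/-!
# Non-fibered rational self-maps of arbitrary varieties: power series points (row ARC)
-/

open MvPolynomial
open Pool.Agent.H12.ZD (pmap)
open Pool.Agent.H18.HIT Pool.Agent.H18.HX Pool.Agent.H18.VZ

namespace Pool.Agent.H67.VZ

namespace ARC

section chain

variable {k : Type} [Field k] {L : ℕ} {A : Type} [CommRing A] [Algebra k A]

/-- chain rule -/
theorem chain (E : Derivation k A A) (φ : Po L k →ₐ[k] A) (c : Po L k) :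
    E (φ c) = ∑ l, φ (pderiv l c) * E (φ (X l)) := by
  induction c using MvPolynomial.induction_on with
  | C a =>
    have h1 : φ (C a) = algebraMap k A a := by
      rw [← MvPolynomial.algebraMap_eq]
      exact φ.commutes a
    rw [h1, Derivation.map_algebraMap]
    symm
    refine Finset.sum_eq_zero fun l _ => ?_
    rw [pderiv_C, map_zero, zero_mul]
  | add p q hp hq =>
    rw [map_add, map_add, hp, hq, ← Finset.sum_add_distrib]
    refine Finset.sum_congr rfl fun l _ => ?_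
    rw [map_add, map_add, add_mul]
  | mul_X p i hp =>
    rw [map_mul, Derivation.leibniz, hp, smul_eq_mul, smul_eq_mul, Finset.mul_sum]
    have h1 : ∀ l, φ (pderiv l (p * X i)) * E (φ (X l)) =
        φ p * φ ((Pi.single l (1 : Po L k) : Fin L → Po L k) i) * E (φ (X l)) +
          φ (X i) * (φ (pderiv l p) * E (φ (X l))) := by
      intro l
      rw [Derivation.leibniz, pderiv_X, smul_eq_mul, smul_eq_mul, map_add, map_mul, map_mul]
      ring
    rw [Finset.sum_congr rfl fun l _ => h1 l, Finset.sum_add_distrib]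
    congr 1
    rw [Finset.sum_eq_single i]
    · rw [Pi.single_eq_same, map_one, mul_one]
    · intro l _ hl
      rw [Pi.single_eq_of_ne (Ne.symm hl), map_zero, mul_zero, zero_mul]
    · intro h
      exact absurd (Finset.mem_univ i) h

end chain

section ps

variable {k κ : Type} [Field k] [Field κ] [Algebra k κ]

/-- coefficientwise extension of a linear map -/
noncomputable def extL (δ : Derivation k κ κ) : PowerSeries κ →ₗ[k] PowerSeries κ where
  toFun := fun f => PowerSeries.mk fun n => δ (PowerSeries.coeff n f)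
  map_add' := fun f g => by
    ext n
    simp
  map_smul' := fun a f => by
    ext n
    simp

theorem coeff_extL (δ : Derivation k κ κ) (f : PowerSeries κ) (n : ℕ) :
    PowerSeries.coeff n (extL δ f) = δ (PowerSeries.coeff n f) := by
  have h : extL δ f = PowerSeries.mk fun n => δ (PowerSeries.coeff n f) := rfl
  rw [h, PowerSeries.coeff_mk]

theorem extL_mul (δ : Derivation k κ κ) (f g : PowerSeries κ) :
    extL δ (f * g) = f • extL δ g + g • extL δ f := by
  ext n
  have h1 : PowerSeries.coeff n (g * extL δ f) =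
      ∑ p ∈ Finset.HasAntidiagonal.antidiagonal n, PowerSeries.coeff p.2 g * δ (PowerSeries.coeff p.1 f) := by
    rw [mul_comm, PowerSeries.coeff_mul]
    refine Finset.sum_congr rfl fun p _ => ?_
    rw [coeff_extL, mul_comm]
  rw [coeff_extL, smul_eq_mul, smul_eq_mul, PowerSeries.coeff_mul, map_add, PowerSeries.coeff_mul,
    h1, map_sum, ← Finset.sum_add_distrib]
  refine Finset.sum_congr rfl fun p _ => ?_
  rw [Derivation.leibniz, smul_eq_mul, smul_eq_mul, coeff_extL]

/-- coefficientwise extension of a derivation -/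
noncomputable def ext (δ : Derivation k κ κ) : Derivation k (PowerSeries κ) (PowerSeries κ) :=
  Derivation.mk' (extL δ) (extL_mul δ)

theorem coeff_ext (δ : Derivation k κ κ) (f : PowerSeries κ) (n : ℕ) :
    PowerSeries.coeff n (ext δ f) = δ (PowerSeries.coeff n f) := coeff_extL δ f n

theorem ext_C (δ : Derivation k κ κ) (a : κ) :
    ext δ (PowerSeries.C a) = PowerSeries.C (δ a) := by
  ext n
  rw [coeff_ext, PowerSeries.coeff_C, PowerSeries.coeff_C]
  split_ifs
  · rfl
  · exact map_zero δ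

theorem ext_X (δ : Derivation k κ κ) : ext δ (PowerSeries.X : PowerSeries κ) = 0 := by
  ext n
  rw [coeff_ext, PowerSeries.coeff_X, map_zero]
  split_ifs
  · exact Derivation.map_one_eq_zero δ
  · exact map_zero δ

theorem ext_X_pow (δ : Derivation k κ κ) (m : ℕ) :
    ext δ ((PowerSeries.X : PowerSeries κ) ^ m) = 0 := by
  rw [Derivation.leibniz_pow, ext_X, smul_zero, smul_zero]

/-- the derivative, over `k` -/
noncomputable def D0 (k κ : Type) [Field k] [Field κ] [Algebra k κ] :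
    Derivation k (PowerSeries κ) (PowerSeries κ) :=
  (PowerSeries.derivative κ).restrictScalars k

theorem D0_apply (f : PowerSeries κ) : D0 k κ f = PowerSeries.derivative κ f := rfl

theorem factor {u : PowerSeries κ} (hu : u ≠ 0) : ∃ (n : ℕ) (v : (PowerSeries κ)ˣ),
    u = (v : PowerSeries κ) * PowerSeries.X ^ n :=
  IsDiscreteValuationRing.eq_unit_mul_pow_irreducible hu PowerSeries.X_irreducible

theorem dvd_ext (δ : Derivation k κ κ) (u : PowerSeries κ) : u ∣ ext δ u := by
  by_cases hu : u = 0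
  · rw [hu, map_zero]
  obtain ⟨n, v, rfl⟩ := factor hu
  rw [Derivation.leibniz, ext_X_pow, smul_zero, zero_add, smul_eq_mul]
  refine (Units.mul_left_dvd).2 ?_
  exact Dvd.intro _ rfl

theorem dvd_D0 (u : PowerSeries κ) : u ∣ PowerSeries.X * D0 k κ u := by
  by_cases hu : u = 0
  · rw [hu, map_zero, mul_zero]
  obtain ⟨n, v, rfl⟩ := factor hu
  refine (Units.mul_left_dvd).2 ?_
  rw [Derivation.leibniz, smul_eq_mul, smul_eq_mul, mul_add]
  refine dvd_add ?_ ?_
  · rw [Derivation.leibniz_pow, D0_apply, PowerSeries.derivative_X, smul_eq_mul, mul_one,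
      nsmul_eq_mul]
    rcases Nat.eq_zero_or_pos n with h | h
    · rw [h, pow_zero]
      exact one_dvd _
    · obtain ⟨n', rfl⟩ : ∃ n', n = n' + 1 := ⟨n - 1, by omega⟩
      rw [Nat.add_sub_cancel, pow_succ]
      exact ⟨v * ((n' + 1 : ℕ) : PowerSeries κ), by ring⟩
  · exact ⟨PowerSeries.X * D0 k κ v, by ring⟩

end ps

section main

variable {N : ℕ} {k κ : Type} [Field k] [Field κ] [Algebra k κ] (m : ℕ) (τ : Fin N → κ)
  (i₀ : Fin N)

/-- the substitution -/
noncomputable def S (l : Fin N) : PowerSeries κ :=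
  PowerSeries.C (τ l) + (if l = i₀ then PowerSeries.X ^ m else 0)

variable (k) in
/-- the point of the base -/
noncomputable def gg : Po N k →ₐ[k] PowerSeries κ := aeval (S m τ i₀)

variable (k) in
/-- the point of the hypersurface -/
noncomputable def psi (x : PowerSeries κ) : Po (N + 1) k →ₐ[k] PowerSeries κ :=
  aeval (Fin.cons x (S m τ i₀) : Fin (N + 1) → PowerSeries κ)

theorem psi_X0 (x : PowerSeries κ) : psi k m τ i₀ x (X 0) = x := by
  unfold psi
  rw [aeval_X, Fin.cons_zero]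

theorem psi_Xs (x : PowerSeries κ) (l : Fin N) : psi k m τ i₀ x (X l.succ) = S m τ i₀ l := by
  unfold psi
  rw [aeval_X, Fin.cons_succ]

theorem gg_X (l : Fin N) : gg k m τ i₀ (X l) = S m τ i₀ l := by
  unfold gg
  rw [aeval_X]

theorem gg_C (a : k) : gg k m τ i₀ (C a) = algebraMap k (PowerSeries κ) a := by
  unfold gg
  rw [aeval_C]

theorem psi_up (x : PowerSeries κ) (c : Po N k) : psi k m τ i₀ x (up c) = gg k m τ i₀ c := by
  unfold psi gg up
  rw [aeval_rename]
  have h : (Fin.cons x (S m τ i₀) : Fin (N + 1) → PowerSeries κ) ∘ Fin.succ = S m τ i₀ := by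
    funext l
    rw [Function.comp_apply, Fin.cons_succ]
  rw [h]

theorem psi_eq (x : PowerSeries κ) (c : Po (N + 1) k) :
    psi k m τ i₀ x c = (finSuccEquiv k N c).eval₂ (gg k m τ i₀).toRingHom x := by
  induction c using MvPolynomial.induction_on with
  | C a =>
    have h : finSuccEquiv k N (C a) = Polynomial.C (C a) := by
      rw [finSuccEquiv_apply, eval₂Hom_C]
      rfl
    rw [h, Polynomial.eval₂_C]
    unfold psi
    rw [aeval_C]
    exact (gg_C m τ i₀ a).symm
  | add p q hp hq => rw [map_add, map_add, hp, hq, Polynomial.eval₂_add]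
  | mul_X p i hp =>
    rw [map_mul, map_mul, hp, Polynomial.eval₂_mul]
    congr 1
    refine Fin.cases ?_ (fun l => ?_) i
    · rw [psi_X0, finSuccEquiv_X_zero, Polynomial.eval₂_X]
    · rw [psi_Xs, finSuccEquiv_X_succ, Polynomial.eval₂_C]
      exact (gg_X m τ i₀ l).symm

theorem cc_S (hm : 1 ≤ m) (l : Fin N) : PowerSeries.constantCoeff (S m τ i₀ l) = τ l := by
  unfold S
  rw [map_add, PowerSeries.constantCoeff_C]
  split_ifs
  · rw [map_pow, PowerSeries.constantCoeff_X, zero_pow (by omega), add_zero]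
  · rw [map_zero, add_zero]

theorem cc_gg (hm : 1 ≤ m) (c : Po N k) :
    PowerSeries.constantCoeff (gg k m τ i₀ c) = aeval τ c := by
  induction c using MvPolynomial.induction_on with
  | C a =>
    rw [gg_C, aeval_C, PowerSeries.algebraMap_apply, PowerSeries.constantCoeff_C]
  | add p q hp hq => rw [map_add, map_add, map_add, hp, hq]
  | mul_X p i hp => rw [map_mul, map_mul, map_mul, hp, gg_X, cc_S m τ i₀ hm, aeval_X]

theorem D0_S (l : Fin N) : D0 k κ (S m τ i₀ l) =
    if l = i₀ then (m : PowerSeries κ) * PowerSeries.X ^ (m - 1) else 0 := by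
  unfold S
  rw [map_add, D0_apply, D0_apply, PowerSeries.derivative_C, zero_add]
  split_ifs
  · rw [PowerSeries.derivative_pow, PowerSeries.derivative_X, mul_one]
  · exact map_zero _

theorem ext_S (δ : Derivation k κ κ) (l : Fin N) :
    ext δ (S m τ i₀ l) = PowerSeries.C (δ (τ l)) := by
  unfold S
  rw [map_add, ext_C]
  split_ifs
  · rw [ext_X_pow, add_zero]
  · rw [map_zero, add_zero]

theorem D0_gg (c : Po N k) : D0 k κ (gg k m τ i₀ c) =
    gg k m τ i₀ (pderiv i₀ c) * ((m : PowerSeries κ) * PowerSeries.X ^ (m - 1)) := by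
  rw [chain]
  rw [Finset.sum_eq_single i₀]
  · rw [gg_X, D0_S, if_pos rfl]
  · intro l _ hl
    rw [gg_X, D0_S, if_neg hl, mul_zero]
  · intro h
    exact absurd (Finset.mem_univ i₀) h

theorem D0_psi (x : PowerSeries κ) (c : Po (N + 1) k) : D0 k κ (psi k m τ i₀ x c) =
    psi k m τ i₀ x (pderiv 0 c) * D0 k κ x + psi k m τ i₀ x (pderiv i₀.succ c) *
      ((m : PowerSeries κ) * PowerSeries.X ^ (m - 1)) := by
  rw [chain, Fin.sum_univ_succ, psi_X0]
  congr 1
  rw [Finset.sum_eq_single i₀]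
  · rw [psi_Xs, D0_S, if_pos rfl]
  · intro l _ hl
    rw [psi_Xs, D0_S, if_neg hl, mul_zero]
  · intro h
    exact absurd (Finset.mem_univ i₀) h

theorem ext_psi (x : PowerSeries κ) (c : Po (N + 1) k) (δ : Derivation k κ κ) {j : Fin N}
    (hj : j ≠ i₀) (hδ : ∀ l, l ≠ i₀ → δ (τ l) = if l = j then 1 else 0) :
    ext δ (psi k m τ i₀ x c) = psi k m τ i₀ x (pderiv 0 c) * ext δ x +
      (psi k m τ i₀ x (pderiv j.succ c) +
        psi k m τ i₀ x (pderiv i₀.succ c) * PowerSeries.C (δ (τ i₀))) := by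
  rw [chain, Fin.sum_univ_succ, psi_X0]
  congr 1
  have h1 : ∀ l, psi k m τ i₀ x (pderiv l.succ c) * ext δ (psi k m τ i₀ x (X l.succ)) =
      psi k m τ i₀ x (pderiv l.succ c) * PowerSeries.C (δ (τ l)) := fun l => by
    rw [psi_Xs, ext_S]
  rw [Finset.sum_congr rfl fun l _ => h1 l, Finset.sum_eq_add j i₀ hj]
  · rw [hδ j hj, if_pos rfl, map_one, mul_one]
  · rintro l - ⟨hl1, hl2⟩
    rw [hδ l hl2, if_neg hl1, map_zero, mul_zero]
  · intro h
    exact absurd (Finset.mem_univ j) h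
  · intro h
    exact absurd (Finset.mem_univ i₀) h

theorem dd_apply (P c : Po (N + 1) k) (l : Fin N) :
    dd P l c = pderiv 0 P * pderiv l.succ c - pderiv l.succ P * pderiv 0 c := by
  unfold dd
  rw [Derivation.sub_apply, Derivation.smul_apply, Derivation.smul_apply, smul_eq_mul, smul_eq_mul]

variable {m τ i₀}

theorem key1 {x : PowerSeries κ} {P : Po (N + 1) k} (hP : psi k m τ i₀ x P = 0)
    (c : Po (N + 1) k) : psi k m τ i₀ x (pderiv 0 P) * D0 k κ (psi k m τ i₀ x c) =
      ((m : PowerSeries κ) * PowerSeries.X ^ (m - 1)) * psi k m τ i₀ x (dd P i₀ c) := by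
  have h1 := D0_psi m τ i₀ x c
  have h2 := D0_psi m τ i₀ x P
  rw [hP, map_zero] at h2
  rw [dd_apply, map_sub, map_mul, map_mul]
  linear_combination psi k m τ i₀ x (pderiv 0 P) * h1 - psi k m τ i₀ x (pderiv 0 c) * h2

theorem key2 {x : PowerSeries κ} {P : Po (N + 1) k} (hP : psi k m τ i₀ x P = 0)
    (c : Po (N + 1) k) (δ : Derivation k κ κ) {j : Fin N} (hj : j ≠ i₀)
    (hδ : ∀ l, l ≠ i₀ → δ (τ l) = if l = j then 1 else 0) :
    psi k m τ i₀ x (pderiv 0 P) * ext δ (psi k m τ i₀ x c) =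
      psi k m τ i₀ x (dd P j c) + PowerSeries.C (δ (τ i₀)) * psi k m τ i₀ x (dd P i₀ c) := by
  have h1 := ext_psi m τ i₀ x c δ hj hδ
  have h2 := ext_psi m τ i₀ x P δ hj hδ
  rw [hP, map_zero] at h2
  rw [dd_apply, map_sub, map_mul, map_mul, dd_apply, map_sub, map_mul, map_mul]
  linear_combination psi k m τ i₀ x (pderiv 0 P) * h1 - psi k m τ i₀ x (pderiv 0 c) * h2

theorem isUnit_m [CharZero k] (hm : 1 ≤ m) : IsUnit (m : PowerSeries κ) := by
  have h0 : (m : k) ≠ 0 := Nat.cast_ne_zero.2 (by omega)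
  have h1 := (IsUnit.mk0 (m : k) h0).map (algebraMap k (PowerSeries κ))
  rwa [map_natCast] at h1

theorem dvd1 [CharZero k] (hm : 1 ≤ m) {x : PowerSeries κ} {P : Po (N + 1) k}
    (hP : psi k m τ i₀ x P = 0) (c : Po (N + 1) k) :
    psi k m τ i₀ x c ∣ PowerSeries.X ^ m * psi k m τ i₀ x (dd P i₀ c) := by
  have h1 := key1 hP c
  have h2 : (m : PowerSeries κ) * (PowerSeries.X ^ m * psi k m τ i₀ x (dd P i₀ c)) =
      psi k m τ i₀ x (pderiv 0 P) * (PowerSeries.X * D0 k κ (psi k m τ i₀ x c)) := by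
    obtain ⟨m', rfl⟩ : ∃ m', m = m' + 1 := ⟨m - 1, by omega⟩
    rw [Nat.add_sub_cancel] at h1
    linear_combination (-PowerSeries.X) * h1
  rw [← (isUnit_m (k := k) hm).dvd_mul_left, h2]
  exact Dvd.dvd.mul_left (dvd_D0 _) _

theorem dvd2 [CharZero k] (hm : 1 ≤ m) {x : PowerSeries κ} {P : Po (N + 1) k}
    (hP : psi k m τ i₀ x P = 0)
    (hD : ∀ j, j ≠ i₀ → ∃ δ : Derivation k κ κ, ∀ l, l ≠ i₀ → δ (τ l) = if l = j then 1 else 0)
    (l : Fin N) (c : Po (N + 1) k) :
    psi k m τ i₀ x c ∣ PowerSeries.X ^ m * psi k m τ i₀ x (dd P l c) := by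
  by_cases hl : l = i₀
  · rw [hl]
    exact dvd1 hm hP c
  · obtain ⟨δ, hδ⟩ := hD l hl
    have h1 := key2 hP c δ hl hδ
    have h2 : PowerSeries.X ^ m * psi k m τ i₀ x (dd P l c) =
        PowerSeries.X ^ m * psi k m τ i₀ x (pderiv 0 P) * ext δ (psi k m τ i₀ x c) -
          PowerSeries.C (δ (τ i₀)) * (PowerSeries.X ^ m * psi k m τ i₀ x (dd P i₀ c)) := by
      linear_combination (-PowerSeries.X ^ m) * h1
    rw [h2]
    exact dvd_sub (Dvd.dvd.mul_left (dvd_ext δ _) _) (Dvd.dvd.mul_left (dvd1 hm hP c) _)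

theorem nabla {x : PowerSeries κ} {P : Po (N + 1) k} (hP : psi k 1 τ i₀ x P = 0)
    (hD : ∀ j, j ≠ i₀ → ∃ δ : Derivation k κ κ, ∀ l, l ≠ i₀ → δ (τ l) = if l = j then 1 else 0)
    (l : Fin N) : ∃ E : Derivation k (PowerSeries κ) (PowerSeries κ), ∀ c : Po (N + 1) k,
      psi k 1 τ i₀ x (dd P l c) = E (psi k 1 τ i₀ x c) := by
  have h0 : ∀ c : Po (N + 1) k, psi k 1 τ i₀ x (pderiv 0 P) * D0 k κ (psi k 1 τ i₀ x c) =
      psi k 1 τ i₀ x (dd P i₀ c) := by
    intro c
    have h1 := key1 hP c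
    rw [Nat.cast_one, Nat.sub_self, pow_zero, one_mul, one_mul] at h1
    exact h1
  by_cases hl : l = i₀
  · refine ⟨psi k 1 τ i₀ x (pderiv 0 P) • D0 k κ, fun c => ?_⟩
    rw [hl, Derivation.smul_apply, smul_eq_mul, h0]
  · obtain ⟨δ, hδ⟩ := hD l hl
    refine ⟨psi k 1 τ i₀ x (pderiv 0 P) • ext δ -
      (PowerSeries.C (δ (τ i₀)) * psi k 1 τ i₀ x (pderiv 0 P)) • D0 k κ, fun c => ?_⟩
    rw [Derivation.sub_apply, Derivation.smul_apply, Derivation.smul_apply, smul_eq_mul,
      smul_eq_mul, mul_assoc, h0, key2 hP c δ hl hδ]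
    ring

theorem gg_ne_zero [CharZero k] (hm : 1 ≤ m) {q : Po N k} (hq : Irreducible q)
    (hτ : ∀ c : Po N k, aeval τ c = 0 ↔ q ∣ c) (hi : ¬ q ∣ pderiv i₀ q) {c : Po N k}
    (hc : c ≠ 0) : gg k m τ i₀ c ≠ 0 := by
  have hq0 : gg k m τ i₀ q ≠ 0 := by
    intro h
    have h1 := D0_gg (k := k) m τ i₀ q
    rw [h, map_zero] at h1
    have h2 : gg k m τ i₀ (pderiv i₀ q) = 0 := by
      rcases mul_eq_zero.1 h1.symm with h2 | h2
      · exact h2
      · exfalso
        rcases mul_eq_zero.1 h2 with h3 | h3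
        · exact (isUnit_m (k := k) (κ := κ) hm).ne_zero h3
        · exact pow_ne_zero _ PowerSeries.X_ne_zero h3
    have h3 := cc_gg (k := k) m τ i₀ hm (pderiv i₀ q)
    rw [h2, map_zero] at h3
    exact hi ((hτ _).1 h3.symm)
  obtain ⟨c', hc', hqc'⟩ :=
    (FiniteMultiplicity.of_not_isUnit hq.not_isUnit hc).exists_eq_pow_mul_and_not_dvd
  rw [hc', map_mul, map_pow]
  refine mul_ne_zero (pow_ne_zero _ hq0) fun h => ?_
  have h3 := cc_gg (k := k) m τ i₀ hm c'
  rw [h, map_zero] at h3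
  exact hqc' ((hτ _).1 h3.symm)

theorem not_dvd [CharZero k] {q : Po N k} (hτ : ∀ c : Po N k, aeval τ c = 0 ↔ q ∣ c)
    (hi : ¬ q ∣ pderiv i₀ q) : ¬ PowerSeries.X ^ 2 ∣ gg k 1 τ i₀ q := by
  rintro ⟨w, hw⟩
  have h1 := D0_gg (k := k) 1 τ i₀ q
  rw [Nat.cast_one, Nat.sub_self, pow_zero, mul_one, mul_one] at h1
  have h2 := cc_gg (k := k) 1 τ i₀ le_rfl (pderiv i₀ q)
  rw [← h1, hw, Derivation.leibniz, smul_eq_mul, smul_eq_mul, D0_apply, D0_apply,
    PowerSeries.derivative_pow, map_add, map_mul, map_mul, map_mul, map_mul, map_pow, map_pow,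
    PowerSeries.constantCoeff_X] at h2
  refine hi ((hτ _).1 ?_)
  rw [← h2]
  norm_num

end main

end ARC

open ARC in
theorem pf_ARC : Pool.Agent.H18.VZ.T_ARC := by
  intro N r m k κ _ _ _ _ _ _ P q τ i₀ x hP hq hm hτ hi hD hsp
  have hroot : ∀ j, psi k m τ i₀ (x j) P = 0 := by
    intro j
    have h1 := psi_eq m τ i₀ (x j) P
    have h2 : (finSuccEquiv k N P).map (gg k m τ i₀).toRingHom =
        ∏ j, (Polynomial.X - Polynomial.C (x j)) := hsp
    rw [← Polynomial.eval_map, h2, Polynomial.eval_prod] at h1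
    rw [h1]
    refine Finset.prod_eq_zero (Finset.mem_univ j) ?_
    rw [Polynomial.eval_sub, Polynomial.eval_X, Polynomial.eval_C, sub_self]
  have harc : ∀ j, Arc P (psi k m τ i₀ (x j)) := by
    intro j c
    constructor
    · intro h
      by_contra hc
      obtain ⟨c', A, hc', w, hw⟩ := Pool.Agent.H70.HX.pf_NRX N k P c hP.irr hP.mon hc
      have h1 := congrArg (psi k m τ i₀ (x j)) hw
      rw [map_sub, map_mul, map_mul, h, hroot j, zero_mul, zero_mul, sub_zero, psi_up] at h1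
      exact gg_ne_zero hm hq hτ hi hc' h1
    · rintro ⟨w, rfl⟩
      rw [map_mul, hroot j, zero_mul]
  refine ⟨fun j => psi k m τ i₀ (x j), ⟨harc, fun j j' c => ?_, fun j c => ?_, fun j => ?_⟩,
    fun j => psi_X0 m τ i₀ (x j), fun j l => psi_Xs m τ i₀ (x j) l,
    fun j l c => dvd2 hm (hroot j) hD l c, ?_⟩
  · rw [psi_up, psi_up]
  · unfold rd
    rw [psi_up, cc_gg m τ i₀ hm]
    exact hτ c
  · have h1 : ((psi k m τ i₀ (x j) : Po (N + 1) k →+* PowerSeries κ).comp
        (rename Fin.succ : Po N k →ₐ[k] Po (N + 1) k).toRingHom) = (gg k m τ i₀).toRingHom := by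
      refine RingHom.ext fun c => ?_
      exact psi_up m τ i₀ (x j) c
    have h2 : (finSuccEquiv k N P).map (gg k m τ i₀).toRingHom =
        ∏ j, (Polynomial.X - Polynomial.C (x j)) := hsp
    rw [h1, h2]
    refine Finset.prod_congr rfl fun l _ => ?_
    rw [psi_X0]
  · rintro rfl j
    refine ⟨?_, fun _ l c c' hcc => ?_⟩
    · rw [psi_up]
      exact not_dvd hτ hi
    · obtain ⟨E, hE⟩ := nabla (hroot j) hD l
      obtain ⟨v, hv⟩ := hcc
      rw [map_mul, map_sub, map_mul, map_mul, hE, hE, ← hv, Derivation.leibniz, smul_eq_mul,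
        smul_eq_mul]
      have h1 : psi k 1 τ i₀ (x j) c * (psi k 1 τ i₀ (x j) c * (v : PowerSeries κ)) =
          (psi k 1 τ i₀ (x j) c * psi k 1 τ i₀ (x j) c) * (v : PowerSeries κ) := by ring
      rw [h1, Units.mul_right_dvd]
      exact ⟨-E (v : PowerSeries κ), by ring⟩

end Pool.Agent.H67.VZ
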