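import Pool.Agent.H18.VZ.Targets

/-!
# Non-fibered rational self-maps of arbitrary varieties: simultaneous division (row DVS)
-/

open MvPolynomial
open Pool.Agent.H12.ZD (pmap)
open Pool.Agent.H18.HIT Pool.Agent.H18.HX Pool.Agent.H18.VZ

namespace Pool.Agent.H67.VZ

namespace DVS

/-- Krull's intersection theorem at the generic point of a prime ideal `H` containing the prime
element `P`. -/
theorem krull {R : Type} [CommRing R] [IsDomain R] [IsNoetherianRing R] {P : R} (hP : Prime P)
    {H : Ideal R} (hH : H.IsPrime) (hPH : P ∈ H) {h : R} (hh : h ∈ H) {c : R}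
    (hc : ∀ μ : ℕ, ∃ s c' : R, s ∉ H ∧ P ∣ s * c - h ^ μ * c') : P ∣ c := by
  classical
  set I : Ideal R := Ideal.span {P} with hI
  have hIp : I.IsPrime := (Ideal.span_singleton_prime hP.ne_zero).2 hP
  have hIH : I ≤ H := by
    rw [hI, Ideal.span_singleton_le_iff_mem]
    exact hPH
  have hdom : IsDomain (R ⧸ I) := Ideal.Quotient.isDomain I
  set HB : Ideal (R ⧸ I) := H.map (Ideal.Quotient.mk I) with hHB
  have hHBp : HB.IsPrime := by
    refine Ideal.map_isPrime_of_surjective Ideal.Quotient.mk_surjective ?_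
    rw [Ideal.mk_ker]
    exact hIH
  have hmem : ∀ x : R, Ideal.Quotient.mk I x ∈ HB ↔ x ∈ H := fun x =>
    Ideal.mem_quotient_iff_mem hIH
  have hNA : IsNoetherianRing (Localization.AtPrime HB) :=
    IsLocalization.isNoetherianRing HB.primeCompl _ inferInstance
  set f : R →+* Localization.AtPrime HB :=
    (algebraMap (R ⧸ I) (Localization.AtPrime HB)).comp (Ideal.Quotient.mk I) with hf
  have hf0 : ∀ x : R, f x = 0 ↔ P ∣ x := by
    intro x
    have hinj : Function.Injective (algebraMap (R ⧸ I) (Localization.AtPrime HB)) :=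
      IsLocalization.injective _ (Ideal.primeCompl_le_nonZeroDivisors HB)
    rw [hf, RingHom.comp_apply, map_eq_zero_iff _ hinj, Ideal.Quotient.eq_zero_iff_mem, hI,
      Ideal.mem_span_singleton]
  have hfu : ∀ s : R, s ∉ H → IsUnit (f s) := by
    intro s hs
    have : Ideal.Quotient.mk I s ∈ HB.primeCompl := fun h => hs ((hmem s).1 h)
    exact IsLocalization.map_units (Localization.AtPrime HB)
      (⟨Ideal.Quotient.mk I s, this⟩ : HB.primeCompl)
  have hfm : f h ∈ IsLocalRing.maximalIdeal (Localization.AtPrime HB) :=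
    (IsLocalization.AtPrime.to_map_mem_maximal_iff (Localization.AtPrime HB) HB _).2
      ((hmem h).2 hh)
  have key : ∀ μ : ℕ, f c ∈ IsLocalRing.maximalIdeal (Localization.AtPrime HB) ^ μ := by
    intro μ
    obtain ⟨s, c', hs, hd⟩ := hc μ
    have h1 : f s * f c = f h ^ μ * f c' := by
      have h2 := (hf0 _).2 hd
      rw [map_sub, map_mul, map_mul, map_pow, sub_eq_zero] at h2
      exact h2
    have h3 : f s * f c ∈ IsLocalRing.maximalIdeal (Localization.AtPrime HB) ^ μ := by
      rw [h1]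
      exact Ideal.mul_mem_right _ _ (Ideal.pow_mem_pow hfm μ)
    exact (Ideal.unit_mul_mem_iff_mem _ (hfu s hs)).1 h3
  have h4 : f c ∈ (⨅ i : ℕ, IsLocalRing.maximalIdeal (Localization.AtPrime HB) ^ i) :=
    (Ideal.mem_iInf).2 key
  rw [Ideal.iInf_pow_eq_bot_of_isLocalRing _
    (IsLocalRing.maximalIdeal.isMaximal _).ne_top] at h4
  exact (hf0 c).1 h4

end DVS

open DVS in
theorem pf_DVS (hDVR : T_DVR) : T_DVS := by
  classical
  intro N r n k _ _ _ P H h c hP hH hPx hc
  obtain ⟨i₀, hi₀⟩ := hc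
  have hprime := hH.prime
  by_contra hcon
  have hall : ∀ μ : ℕ, ∃ (s : Po (N + 1) k) (c' : Fin n → Po (N + 1) k), s ∉ H ∧
      ∀ i, P ∣ s * c i - up h ^ μ * c' i := by
    intro μ
    induction μ with
    | zero =>
      refine ⟨1, c, fun h1 => hprime.ne_top ((Ideal.eq_top_iff_one H).2 h1), fun i => ?_⟩
      rw [pow_zero, sub_self]
      exact dvd_zero P
    | succ μ ih =>
      obtain ⟨s, c', hs, hd⟩ := ih
      have hcH : ∀ i, c' i ∈ H := by
        intro i
        by_contra hi
        exact hcon ⟨μ, s, c', hs, hd, i, hi⟩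
      choose t c'' ht hd' using fun i => hDVR N r k P H h hP hH hPx (c' i) (hcH i)
      refine ⟨(∏ i, t i) * s, fun i => (∏ j ∈ Finset.univ.erase i, t j) * c'' i, ?_, fun i => ?_⟩
      · intro hm
        rcases hprime.mem_or_mem hm with h1 | h1
        · obtain ⟨j, -, hj⟩ := Ideal.IsPrime.prod_mem_iff.1 h1
          exact ht j hj
        · exact hs h1
      · have h1 : (∏ j, t j) = t i * ∏ j ∈ Finset.univ.erase i, t j :=
          (Finset.mul_prod_erase Finset.univ t (Finset.mem_univ i)).symm
        have h2 : (∏ j, t j) * s * c i -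
            up h ^ (μ + 1) * ((∏ j ∈ Finset.univ.erase i, t j) * c'' i) =
            (∏ j, t j) * (s * c i - up h ^ μ * c' i) +
            (∏ j ∈ Finset.univ.erase i, t j) * up h ^ μ * (t i * c' i - up h * c'' i) := by
          rw [h1]
          ring
        rw [h2]
        exact dvd_add (Dvd.dvd.mul_left (hd i) _) (Dvd.dvd.mul_left (hd' i) _)
  have hup : up h ∈ H := (hH.iff h).2 dvd_rfl
  refine hi₀ (krull hP.irr.prime hprime hH.mem hup fun μ => ?_)
  obtain ⟨s, c', hs, hd⟩ := hall μ
  exact ⟨s, c' i₀, hs, hd i₀⟩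

end Pool.Agent.H67.VZ
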